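import Pool.Agent.H476R2.Examples

/-!
# Integer invariants of a sail do not determine a two-dimensional continued fraction

The definitions (cones, sails, cells, integer area, distance, length and angle, invariant preserving
homeomorphisms, equivalence) are in `Pool.Agent.H476R2.SailDefs`.
-/

namespace Pool.Agent.Results.MP_97563e_nt.SailInvariants

open Pool.Agent.H476R2

theorem notEquivalent (R : ExOne.Roots) (R' : ExTwo.Roots) :
    ¬ Equivalent R.sys.planes R'.sys.planes := by
  rintro ⟨g, hg⟩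
  obtain ⟨c, hc⟩ := norm_of_equivalent R.sys R'.sys R.norm_ge R'.norm_ge g hg
  have hic : ∀ (M : Matrix (Fin 3) (Fin 3) ℤ) (z : Fin 3 → ℤ), actM M (ic z) = ic (M.mulVec z) := by
    intro M z
    funext i
    simp [actM, ic, Matrix.mulVec, dotProduct]
  have h1 : ∀ z : Fin 3 → ℤ, (ExTwo.nf (g.1.mulVec z) : ℝ) = c * (ExOne.nf z : ℝ) := by
    intro z
    have := hc (ic z)
    rw [hic] at this
    have e1 : ∏ i, R'.sys.L i (ic (g.1.mulVec z)) = (ExTwo.nf (g.1.mulVec z) : ℝ) := R'.prod_L _
    have e2 : ∏ i, R.sys.L i (ic z) = (ExOne.nf z : ℝ) := R.prod_L _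
    rw [e1, e2] at this
    exact this
  have hginv : ∀ z : Fin 3 → ℤ, g.1.mulVec ((g⁻¹).1.mulVec z) = z := by
    intro z
    rw [Matrix.mulVec_mulVec]
    have : g.1 * (g⁻¹).1 = 1 := g.mul_inv
    rw [this, Matrix.one_mulVec]
  -- the constant is an integer
  set n : ℤ := ExTwo.nf (g.1.mulVec ![1, 0, 0]) with hn
  have hcn : c = n := by
    have := h1 ![1, 0, 0]
    have e : ExOne.nf ![1, 0, 0] = 1 := by simp [ExOne.nf]
    rw [e] at this
    rw [hn, this]
    simp
  have h2 : ∀ z : Fin 3 → ℤ, ExTwo.nf (g.1.mulVec z) = n * ExOne.nf z := by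
    intro z
    have := h1 z
    rw [hcn] at this
    exact_mod_cast this
  -- it is a unit
  have hunit : IsUnit n := by
    have h3 := h2 ((g⁻¹).1.mulVec ![1, 0, 0])
    rw [hginv] at h3
    have e : ExTwo.nf ![1, 0, 0] = 1 := by simp [ExTwo.nf]
    rw [e] at h3
    exact IsUnit.of_mul_eq_one _ h3.symm
  -- a value of the second form divisible by three
  have h4 := h2 ((g⁻¹).1.mulVec ![-2, 1, 0])
  rw [hginv] at h4
  have e : ExTwo.nf ![-2, 1, 0] = 69 := by
    simp [ExTwo.nf]
  rw [e] at h4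
  have h5 : (3 : ℤ) ∣ ExOne.nf ((g⁻¹).1.mulVec ![-2, 1, 0]) := by
    have h6 : (3 : ℤ) ∣ n * ExOne.nf ((g⁻¹).1.mulVec ![-2, 1, 0]) := by
      rw [← h4]
      norm_num
    rcases Int.isUnit_iff.mp hunit with h | h
    · rw [h, one_mul] at h6
      exact h6
    · rw [h, neg_one_mul, dvd_neg] at h6
      exact h6
  have h6 := ExOne.nf_dvd h5
  have h7 : (3 : ℤ) ∣ (g.1.mulVec ((g⁻¹).1.mulVec ![-2, 1, 0])) 0 := by
    rw [Matrix.mulVec, dotProduct]
    apply Finset.dvd_sum
    intro j _
    exact Dvd.dvd.mul_left (h6 j) _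
  rw [hginv] at h7
  have h8 : (3 : ℤ) ∣ -2 := h7
  norm_num at h8

/-- There are two periodic (cubic) two-dimensional continued fractions `F`, `F'`, and sails of
them related by a homeomorphism which carries faces to faces, edges to edges and vertices to
vertices and preserves integer areas and distances of faces, integer lengths of edges and integer
angles of adjacent edges, although `F` and `F'` are not equivalent. Moreover every face of the sail
of `F` has integer area `1` and integer distance `1` or `8`. -/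
theorem result : ∃ (F F' : Planes) (s s' : Fin 3 → ℤˣ) (φ : sail F s ≃ₜ sail F' s'),
    IsCubic F ∧ IsCubic F' ∧ InvariantPreserving F s F' s' φ ∧
      (∀ G, IsCell (hull F s) 2 G →
        HasIntegerArea G 1 ∧ (HasIntegerDistance G 1 ∨ HasIntegerDistance G 8)) ∧
      ¬ Equivalent F F' := by
  obtain ⟨R⟩ := ExOne.exists_roots
  obtain ⟨R'⟩ := ExTwo.exists_roots
  obtain ⟨φ, hφ⟩ := Sys.exists_homeo R.sys R'.sys rfl
  refine ⟨R.sys.planes, R'.sys.planes, 1, 1, φ, ?_, ?_, hφ, ?_, notEquivalent R R'⟩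
  · exact ⟨ExOne.Roots.B.1, ExOne.Roots.B.2, ExOne.Roots.irreducible_B,
      fun i => ⟨R.be i, fun x => R.LB i x⟩⟩
  · exact ⟨ExTwo.Roots.B.1, ExTwo.Roots.B.2, ExTwo.Roots.irreducible_B,
      fun i => ⟨R'.be i, fun x => R'.LB i x⟩⟩
  · intro G hG
    rw [R.sys.hull_eq] at hG
    obtain ⟨i, J, hJ, rfl⟩ := R.sys.data.isCell_iff.mp hG
    have hJu : J = Finset.univ := by
      apply Finset.eq_univ_of_card
      rw [hJ]
      simp
    subst hJu
    rw [R.sys.data.simp_univ i, R.sys.latData.area_iff, R.sys.latData.distance_iff,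
      R.sys.latData.distance_iff]
    refine ⟨rfl, ?_⟩
    obtain ⟨g, τ⟩ := i
    cases τ
    · left; rfl
    · right; rfl

end Pool.Agent.Results.MP_97563e_nt.SailInvariants
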